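import Mathlib
import Pool.Agent.Helper76_LAG.Stmt

/-!
# LLG: the linear arboricity conjecture for girth at least `C log log Δ`; statements of the modules

Conventions of `Pool.Agent.LAG`: `near G r a b`, `Big G g` (all cycles are longer than `g`),
`IsP G z n` (path with `n` edges), `IsC G z m` (cycle with `m` edges), `cyc z`.
-/

set_option autoImplicit false

namespace Pool.Agent.LLG

open SimpleGraph Pool.Agent.LAG

/-! ### General notions -/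

/-- Number of ordered pairs of adjacent vertices, first in `U`, second outside. -/
noncomputable def bd {W : Type} (Γ : SimpleGraph W) (U : Set W) : ℕ :=
  {e : W × W | e.1 ∈ U ∧ e.2 ∉ U ∧ Γ.Adj e.1 e.2}.ncard

/-- Number of ordered pairs of adjacent vertices in `K`. -/
noncomputable def ins {W : Type} (Γ : SimpleGraph W) (K : Set W) : ℕ :=
  {e : W × W | e.1 ∈ K ∧ e.2 ∈ K ∧ Γ.Adj e.1 e.2}.ncard

/-- Small sets span few edges. -/
def Sparse {W : Type} (Γ : SimpleGraph W) (k m : ℕ) : Prop :=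
  ∀ K : Set W, K.ncard < m → 4 * ins Γ K ≤ k * K.ncard

/-- The average over a finite type. -/
noncomputable def av {Ω : Type} [Fintype Ω] (f : Ω → ℝ) : ℝ := (∑ ω, f ω) / (Fintype.card Ω : ℝ)

/-- The open edges of the percolation `ω` with threshold `j` (probability `j / k`). -/
def opn {W : Type} {k : ℕ} (Γ : SimpleGraph W) (ω : Sym2 W → Fin k) (j : ℕ) : SimpleGraph W where
  Adj a b := Γ.Adj a b ∧ (ω s(a, b)).val < j
  symm := ⟨fun a b h => ⟨h.1.symm, by rw [Sym2.eq_swap]; exact h.2⟩⟩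
  loopless := ⟨fun _ h => h.1.ne rfl⟩

/-- The union of `s` percolations of rate `3 / k` and of one percolation of rate `1 / k`. -/
def prc {W : Type} {k : ℕ} (Γ : SimpleGraph W) (s : ℕ) (ω : Fin (s + 1) → Sym2 W → Fin k) :
    SimpleGraph W where
  Adj a b := Γ.Adj a b ∧ ∃ i : Fin (s + 1), (ω i s(a, b)).val < if i.val = s then 1 else 3
  symm := ⟨fun a b h => ⟨h.1.symm, by rw [Sym2.eq_swap]; exact h.2⟩⟩
  loopless := ⟨fun _ h => h.1.ne rfl⟩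

/-- Number of components. -/
noncomputable def cc {W : Type} (G : SimpleGraph W) : ℕ := Nat.card G.ConnectedComponent

/-- The components of `G1` which have no edge of `G2` to the rest. -/
def unm {W : Type} (G1 G2 : SimpleGraph W) : Set G1.ConnectedComponent :=
  {C | ∀ a b, G1.connectedComponentMk a = C → G2.Adj a b → G1.connectedComponentMk b = C}

/-- Missing degrees. -/
noncomputable def mis {W : Type} [Fintype W] (Γ : SimpleGraph W) (k : ℕ) : ℕ :=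
  ∑ x : W, (k - (Γ.neighborSet x).ncard)

/-- The exponent of the counting lemma. -/
noncomputable def cw (k s m u β : ℕ) : ℝ :=
  (6 * (s : ℝ) + 2) * β / k +
    Real.log k * ((5 / 8 : ℝ) ^ s * u + 4 / 3 * ((u : ℝ) / m + 4 * β / k))

/-! ### Percolation and the counting lemma -/

/-- MERGE: the number of components after the addition of edges. -/
def MergeStmt : Prop := ∀ (X : Type) [Fintype X] (G1 G2 : SimpleGraph X), G1 ≤ G2 →
    2 * cc G2 ≤ cc G1 + (unm G1 G2).ncard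

/-- UNM: the expected number of components which are not merged. -/
def UnmStmt : Prop := ∀ (X : Type) [Fintype X] [DecidableEq X] (Γ O : SimpleGraph X) (k m : ℕ),
    16 ≤ k → 1 ≤ m → (∀ v, (Γ.neighborSet v).ncard ≤ k) → Sparse Γ k m → O ≤ Γ →
    av (fun ω : Sym2 X → Fin k => ((unm O (O ⊔ opn Γ ω 3)).ncard : ℝ)) ≤
      1 / 4 * (cc O : ℝ) + ((Fintype.card X : ℝ) / m + 4 * (mis Γ k : ℝ) / k)

/-- SPR1: one percolation of rate `3 / k`. -/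
def Spr1Stmt : Prop := ∀ (X : Type) [Fintype X] [DecidableEq X] (Γ O : SimpleGraph X) (k m : ℕ),
    16 ≤ k → 1 ≤ m → (∀ v, (Γ.neighborSet v).ncard ≤ k) → Sparse Γ k m → O ≤ Γ →
    av (fun ω : Sym2 X → Fin k => (cc (O ⊔ opn Γ ω 3) : ℝ)) ≤
      5 / 8 * (cc O : ℝ) + 1 / 2 * ((Fintype.card X : ℝ) / m + 4 * (mis Γ k : ℝ) / k)

/-- SPR0: the last percolation connects everything with probability at least `k ^ (- cc O)`. -/
def Spr0Stmt : Prop := ∀ (X : Type) [Fintype X] [DecidableEq X] (Γ O : SimpleGraph X) (k : ℕ),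
    2 ≤ k → Γ.Connected → O ≤ Γ →
    ((k : ℝ) ^ (cc O))⁻¹ ≤ av (fun ω : Sym2 X → Fin k =>
      Set.indicator {ω | (O ⊔ opn Γ ω 1).Connected} (fun _ => (1 : ℝ)) ω)

/-- SPR: all percolations together. -/
def SprStmt : Prop := ∀ (X : Type) [Fintype X] [DecidableEq X] (Γ : SimpleGraph X) (k s m : ℕ),
    16 ≤ k → 1 ≤ m → (∀ v, (Γ.neighborSet v).ncard ≤ k) → Sparse Γ k m → Γ.Connected →
    Real.exp (-(Real.log k * ((5 / 8 : ℝ) ^ s * (Fintype.card X : ℝ) +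
      4 / 3 * ((Fintype.card X : ℝ) / m + 4 * (mis Γ k : ℝ) / k)))) ≤
    av (fun ω : Fin (s + 1) → Sym2 X → Fin k =>
      Set.indicator {ω | (prc Γ s ω).Connected} (fun _ => (1 : ℝ)) ω)

/-- CLU: probability that the cluster of a vertex of `U` is `U`. -/
def CluStmt : Prop := ∀ (W : Type) [Fintype W] [DecidableEq W] (Γ : SimpleGraph W) (k s m : ℕ),
    16 ≤ k → 1 ≤ m → (∀ v, (Γ.neighborSet v).ncard = k) → Sparse Γ k m →
    ∀ U : Finset W, (Γ.induce (U : Set W)).Connected →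
    Real.exp (-(cw k s m U.card (bd Γ (U : Set W)))) ≤
      av (fun ω : Fin (s + 1) → Sym2 W → Fin k =>
        Set.indicator {ω | ∀ v ∈ U, {w | (prc Γ s ω).Reachable v w} = (U : Set W)}
          (fun _ => (1 : ℝ)) ω)

/-- COUNT: the weighted number of connected sets which contain a given vertex. -/
def CountStmt : Prop := ∀ (W : Type) [Fintype W] [DecidableEq W] (Γ : SimpleGraph W) (k s m : ℕ),
    16 ≤ k → 1 ≤ m → (∀ v, (Γ.neighborSet v).ncard = k) → Sparse Γ k m →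
    ∀ (v : W) (𝒰 : Finset (Finset W)),
    (∀ U ∈ 𝒰, v ∈ U ∧ (Γ.induce (U : Set W)).Connected) →
    ∑ U ∈ 𝒰, Real.exp (-(cw k s m U.card (bd Γ (U : Set W)))) ≤ 1

/-! ### The double cover -/

/-- The bipartite double cover of the digraph `O` (left copy: tails, right copy: heads). -/
def dbl {V : Type} (O : V → V → Prop) : SimpleGraph (V ⊕ V) where
  Adj a b := (∃ x y, a = Sum.inl x ∧ b = Sum.inr y ∧ O x y) ∨
    ∃ x y, a = Sum.inr y ∧ b = Sum.inl x ∧ O x y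
  symm := ⟨fun _ _ h => h.elim (fun ⟨x, y, h1, h2, h3⟩ => Or.inr ⟨x, y, h2, h1, h3⟩)
    (fun ⟨x, y, h1, h2, h3⟩ => Or.inl ⟨x, y, h2, h1, h3⟩)⟩
  loopless := ⟨fun _ h => by
    rcases h with ⟨x, y, h1, h2, _⟩ | ⟨x, y, h1, h2, _⟩
    · rw [h1] at h2; exact absurd h2 (by simp)
    · rw [h1] at h2; exact absurd h2 (by simp)⟩

/-- The vertex below. -/
def bas {V : Type} : V ⊕ V → V := Sum.elim id id

/-- The set of allowed vertices: outside the zone of radius `90` around `Q`. -/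
def alw {V : Type} (A : SimpleGraph V) (Q : Set V) : Set V := {v | ∀ x ∈ Q, ¬ near A 90 v x}

/-- MOO: small sets of the double cover span few edges (Moore bound). -/
def MooStmt : Prop := ∀ (V : Type) [Fintype V] (R : SimpleGraph V) (O : V → V → Prop) (k h m : ℕ),
    (∀ x y, O x y → R.Adj x y) → (∀ x y, O x y → ¬ O y x) → Big R (2 * h) → 16 ≤ k →
    m ≤ (k / 8) ^ h → Sparse (dbl O) k m

/-- DEN: a set with small boundary has few vertices in the zone. -/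
def DenStmt : Prop := ∀ (V : Type) [Fintype V] (A R : SimpleGraph V) (O : V → V → Prop)
    (Q : Set V) (k q : ℕ), 1 ≤ k → R ≤ A → (∀ x y, O x y → R.Adj x y) →
    (∀ x y, O x y → ¬ O y x) → (∀ v, {w | O v w}.ncard = k ∧ {w | O w v}.ncard = k) →
    Big A 400 → (∀ v, {x | x ∈ Q ∧ near A 93 x v}.ncard ≤ q) → ∀ U : Set (V ⊕ V),
    k ^ 2 * {u | u ∈ U ∧ bas u ∉ alw A Q}.ncard ≤ 4 * q * U.ncard + 3 * k * q * bd (dbl O) U

/-! ### Local lemma and matchings -/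

/-- LLLW: local lemma with weights. -/
def LllwStmt : Prop := ∀ (I α ι : Type) [Fintype I] [DecidableEq I] [Fintype α] [Nonempty α]
    [Fintype ι] (B : ι → Set (I → α)) (W : ι → Finset I) (x : ι → ℝ) (τ : I → ℝ),
    (∀ i ω ω', (∀ v ∈ W i, ω v = ω' v) → ω ∈ B i → ω' ∈ B i) →
    (∀ i, 0 ≤ x i ∧ x i ≤ 1 / 2) →
    (∀ v, ∀ J : Finset ι, (∀ i ∈ J, v ∈ W i) → 2 * ∑ i ∈ J, x i ≤ τ v) →
    (∀ i, ((B i).ncard : ℝ) ≤ x i * Real.exp (-∑ v ∈ W i, τ v) * (Fintype.card (I → α) : ℝ)) →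
    ∃ ω, ∀ i, ω ∉ B i

/-- The numerical conditions of RLL (`c` colours, `T` hosts). -/
def NumL (k T c b m s q n1 lm : ℕ) (η : ℝ) : Prop :=
  16 ≤ k ∧ 4 ≤ T ∧ 1 ≤ m ∧ 1 ≤ b ∧ 0 ≤ η ∧
  8 * (c : ℝ) * (12 * s + 4 + 11 * Real.log k) ≤ k ∧
  4 * (b : ℝ) * Real.log k * (2 * (5 / 8 : ℝ) ^ s + 3 / m) ≤ 1 ∧
  4 * (c : ℝ) * Real.exp (-(k / (8 * c) : ℝ)) + 4 * η ≤ 1 / (4 * c) ∧
  (4 * (c : ℝ) * Real.exp (-(k / (8 * c) : ℝ)) + 4 * η) * lm ≤ 1 / 2 ∧
  4 * (c : ℝ) * Real.exp (-(k / (8 * c) : ℝ)) + 32 * n1 * (c : ℝ) ^ 2 / (b : ℝ) ^ 2 ≤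
    1 / (4 * b) ∧
  32 * q ≤ k ^ 2 ∧ 12 * q * c ≤ k * b ∧ 4 * c ≤ b

/-- RLL: the colouring of the arcs with `σ T` colours (host `t` = the colours `i` with `i / σ = t`)
and the sinks of one round. Label `(i, true)`: sink (tail) for the colour `i`, label `(i, false)`:
sink (head). -/
def RllStmt : Prop := ∀ (V : Type) [Fintype V] (O : V → V → Prop)
    (k σ T b m s q n1 lm : ℕ) (η : ℝ) (al : Set V) (cf : V → V → Prop) (J : Type) [Fintype J]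
    (ev : J → Finset (V × V)), 1 ≤ σ →
    (∀ v, {w | O v w}.ncard = k ∧ {w | O w v}.ncard = k) →
    Sparse (dbl O) k m →
    (∀ U : Set (V ⊕ V), k ^ 2 * {u | u ∈ U ∧ bas u ∉ al}.ncard ≤
      4 * q * U.ncard + 3 * k * q * bd (dbl O) U) →
    (∀ x y, cf x y → cf y x) → (∀ v, {x | cf x v}.ncard ≤ n1) →
    (∀ j, (∀ e ∈ ev j, O e.1 e.2) ∧ (ev j).card ≤ lm ∧ 2 ≤ (ev j).card) →
    (∀ e : V × V, ∀ J' : Finset J, (∀ j ∈ J', e ∈ ev j) →
      ∑ j ∈ J', ((1 : ℝ) / T) ^ ((ev j).card - 1) ≤ η) →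
    NumL k T (σ * T) b m s q n1 lm η →
    ∃ (col : V → V → Fin (σ * T)) (lab : V → Option (Fin (σ * T) × Bool)),
      (∀ v, lab v ≠ none → v ∈ al) ∧
      (∀ u v, u ≠ v → cf u v → lab u = none ∨ lab v = none) ∧
      (∀ j, ¬ ∃ t, ∀ e ∈ ev j, (col e.1 e.2).val / σ = t) ∧
      (∀ (i : Fin (σ * T)) (A : Set V), (∀ x ∈ A, lab x ≠ some (i, true)) →
        A.ncard ≤ {y | ∃ x ∈ A, O x y ∧ col x y = i}.ncard) ∧
      (∀ (i : Fin (σ * T)) (A : Set V), (∀ y ∈ A, lab y ≠ some (i, false)) →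
        A.ncard ≤ {x | ∃ y ∈ A, O x y ∧ col x y = i}.ncard)

/-- HMT: from Hall's conditions on both sides to a matching (Hall, Mendelsohn-Dulmage). -/
def HmtStmt : Prop := ∀ (V : Type) [Fintype V] (E : V → V → Prop) (Z1 Z2 : Set V),
    (∀ A : Set V, (∀ x ∈ A, x ∉ Z1) → A.ncard ≤ {y | ∃ x ∈ A, E x y}.ncard) →
    (∀ A : Set V, (∀ y ∈ A, y ∉ Z2) → A.ncard ≤ {x | ∃ y ∈ A, E x y}.ncard) →
    ∃ m : V → V → Prop, (∀ x y, m x y → E x y) ∧ (∀ x y y', m x y → m x y' → y = y') ∧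
      (∀ x x' y, m x y → m x' y → x = x') ∧ (∀ x, x ∉ Z1 → ∃ y, m x y) ∧
      ∀ y, y ∉ Z2 → ∃ x, m x y

/-! ### Paths and cycles in the hosts -/

/-- The arc of `O` on the edge `u v`. -/
noncomputable def arc {V : Type} (O : V → V → Prop) (u v : V) : V × V :=
  open Classical in if O u v then (u, v) else (v, u)

/-- The arcs on the sequence `z 0, …, z n`. -/
noncomputable def arcs {V : Type} (O : V → V → Prop) (z : ℕ → V) (n : ℕ) : Finset (V × V) :=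
  open Classical in (Finset.range n).image fun t => arc O (z t) (z (t + 1))

/-- The zone: vertices at distance at most `90` from `Q`. -/
def Zone {V : Type} (A : SimpleGraph V) (Q : Set V) : Set V := {v | ∃ x ∈ Q, near A 90 v x}

/-- At least one eighth of the vertices `z 0, …, z n` are in the zone. -/
def Heavy {V : Type} (A : SimpleGraph V) (Q : Set V) (z : ℕ → V) (n : ℕ) : Prop :=
  n ≤ 8 * {t : ℕ | t ≤ n ∧ z t ∈ Zone A Q}.ncard

/-- HCNT: number of heavy paths with `n` edges through a given edge at a given position. -/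
def HcntStmt : Prop := ∀ (V : Type) [Fintype V] (A R : SimpleGraph V) (Q : Set V) (k q n p : ℕ)
    (u v : V), 1 ≤ k → q ≤ k → R ≤ A → (∀ v, (R.neighborSet v).ncard ≤ 2 * k) → Big A 400 →
    (∀ v, {x | x ∈ Q ∧ near A 93 x v}.ncard ≤ q) → p < n →
    (Nat.card {z : Fin (n + 1) → V // IsP R (cyc z) n ∧ Heavy A Q (cyc z) n ∧
      cyc z p = u ∧ cyc z (p + 1) = v} : ℝ) ≤
      2 ^ n * (2 * (k : ℝ)) ^ n * ((q : ℝ) / (2 * k)) ^ (n / 4000)

/-- CYCC: number of cycles with `n + 1` edges through a given edge at a given position. -/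
def CyccStmt : Prop := ∀ (V : Type) [Fintype V] (A R : SimpleGraph V) (k h n p : ℕ)
    (u v : V), 1 ≤ k → R ≤ A → (∀ v, (R.neighborSet v).ncard ≤ 2 * k) → Big A (2 * h) →
    p ≤ n →
    (2 * k) ^ h * Nat.card {z : Fin (n + 1) → V // IsC R (cyc z) (n + 1) ∧
      cyc z p = u ∧ cyc z (p + 1) = v} ≤ (2 * k) ^ n

/-- Index type of the events of EVS: cycles with at most `N` edges, heavy paths with `n` edges. -/
abbrev EvI {V : Type} (A R : SimpleGraph V) (Q : Set V) (N n : ℕ) : Type :=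
  {z : (l : Fin N) × (Fin (l.1 + 1) → V) // IsC R (cyc z.2) (z.1.1 + 1)} ⊕
    {z : Fin (n + 1) → V // IsP R (cyc z) n ∧ Heavy A Q (cyc z) n}

/-- The arcs of an event. -/
noncomputable def evA {V : Type} (A R : SimpleGraph V) (O : V → V → Prop) (Q : Set V) (N n : ℕ) :
    EvI A R Q N n → Finset (V × V)
  | Sum.inl z => arcs O (cyc z.1.2) (z.1.1.1 + 1)
  | Sum.inr z => arcs O (cyc z.1) n

/-- The numerical condition of EVS. -/
def NumE (k T q h N n : ℕ) (η : ℝ) : Prop :=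
  1 ≤ k ∧ 1 ≤ T ∧ T ≤ k ∧ q ≤ k ∧ 200 ≤ h ∧ 2 ≤ n ∧ 3 ≤ N ∧
  2 * (N : ℝ) ^ 2 * ((2 * k : ℝ) / T) ^ N * ((2 * k : ℝ) ^ h)⁻¹ ≤ η / 2 ∧
  2 * (n : ℝ) * T * ((4 * k : ℝ) / T) ^ n * ((q : ℝ) / (2 * k)) ^ (n / 4000) ≤ η / 2

/-- EVS: the events of the local lemma which do not involve Hall's condition. -/
def EvsStmt : Prop := ∀ (V : Type) [Fintype V] (A R : SimpleGraph V) (O : V → V → Prop)
    (Q : Set V) (k T q h N n : ℕ) (η : ℝ), NumE k T q h N n η →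
    R ≤ A → (∀ v, (R.neighborSet v).ncard ≤ 2 * k) → Big A (2 * h) →
    (∀ x y, R.Adj x y ↔ O x y ∨ O y x) → (∀ x y, O x y → ¬ O y x) →
    (∀ v, {x | x ∈ Q ∧ near A 93 x v}.ncard ≤ q) →
    (∀ j : EvI A R Q N n, (∀ e ∈ evA A R O Q N n j, O e.1 e.2) ∧
      (evA A R O Q N n j).card ≤ max N n ∧ 2 ≤ (evA A R O Q N n j).card) ∧
    ∀ e : V × V, ∀ J' : Finset (EvI A R Q N n), (∀ j ∈ J', e ∈ evA A R O Q N n j) →
      ∑ j ∈ J', ((1 : ℝ) / T) ^ ((evA A R O Q N n j).card - 1) ≤ η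

/-- ZON: a path has few vertices near a set whose vertices are far apart. -/
def ZonStmt : Prop := ∀ (V : Type) (G : SimpleGraph V) (X : Set V), Big G 4000 →
    (∀ x ∈ X, ∀ y ∈ X, x ≠ y → ¬ near G 1990 x y) →
    ∀ (z : ℕ → V) (n : ℕ), IsP G z n →
    8 * {t : ℕ | t ≤ n ∧ ∃ x ∈ X, near G 92 (z t) x}.ncard ≤ n + 1600

/-! ### The rounds -/

/-- The states. `A \ R` is the part of the last forest which is fixed (units: its components), `Q`
is the set of the vertices which are already touched. -/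
structure Stt {V : Type} (A R : SimpleGraph V) (Q : Set V) (k g q : ℕ) : Prop where
  le : R ≤ A
  m2 : ∀ a b, (A \ R).Reachable a b → near (A \ R) 2 a b
  m3 : ∀ a, {b | (A \ R).Reachable a b}.ncard ≤ 3
  big : Big A g
  deg : ∀ v, (R.neighborSet v).ncard ≤ 2 * k
  sep : ∀ x ∈ Q, ∀ y ∈ Q, x ≠ y → ¬ near A 82 x y
  bal : ∀ v, {x | x ∈ Q ∧ near A 93 x v}.ncard ≤ q

/-- The conclusion: `k` linear forests and a sparse graph `N` which avoids the units of `Q`. -/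
def Cnc {V : Type} (A R : SimpleGraph V) (Q : Set V) (k : ℕ) : Prop :=
  ∃ (F : Fin k → SimpleGraph V) (N : SimpleGraph V),
    (∀ i, F i ≤ R ∧ (F i).IsAcyclic ∧ ∀ v, ((F i).neighborSet v).ncard ≤ 2) ∧ N ≤ R ∧
    (⨆ i, F i) ⊔ N = R ∧ (∀ u v, N.Adj u v → ∀ x ∈ Q, ¬ (A \ R).Reachable u x) ∧
    ∀ u v u' v', N.Adj u v → N.Adj u' v' → (A \ R).Reachable u u' → s(u, v) = s(u', v')

/-- Every state has the conclusion. -/
def Good (k g q : ℕ) : Prop := ∀ (V : Type) [Fintype V] (A R : SimpleGraph V) (Q : Set V),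
    Stt A R Q k g q → Cnc A R Q k

/-- Every regular state has the conclusion. -/
def GoodR (k g q : ℕ) : Prop := ∀ (V : Type) [Fintype V] (A R : SimpleGraph V) (Q : Set V),
    Stt A R Q k g q → (∀ v, (R.neighborSet v).ncard = 2 * k) → Cnc A R Q k

/-- REG + PULL: it suffices to consider regular states. -/
def PullStmt : Prop := ∀ k g q : ℕ, 1 ≤ k → 400 ≤ g → GoodR k g q → Good k g q

/-- ORI: balanced orientation. -/
def OriStmt : Prop := ∀ (V : Type) [Fintype V] (R : SimpleGraph V) (k : ℕ),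
    (∀ v, (R.neighborSet v).ncard = 2 * k) →
    ∃ O : V → V → Prop, (∀ x y, R.Adj x y ↔ O x y ∨ O y x) ∧ (∀ x y, O x y → ¬ O y x) ∧
      ∀ v, {w | O v w}.ncard = k ∧ {w | O w v}.ncard = k

/-- MATCH: the graphs of maximum degree four of one round and the sinks. -/
def MatchStmt : Prop := ∀ (V : Type) [Fintype V] (A R : SimpleGraph V) (Q : Set V)
    (k T b m s q h N n : ℕ) (η : ℝ), NumL k T (2 * T) b m s q ((2 * k + 3) ^ 2000) (max N n) η →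
    NumE k T q h N n η → m ≤ (k / 8) ^ h → Stt A R Q k (2 * h) q →
    (∀ v, (R.neighborSet v).ncard = 2 * k) →
    ∃ (H : Fin T → SimpleGraph V) (Z : Set V),
      (∀ t, H t ≤ R) ∧ (∀ t t', t ≠ t' → Disjoint (H t) (H t')) ∧
      (∀ t v, ((H t).neighborSet v).ncard ≤ 4) ∧
      (∀ v, v ∉ Z → ∀ t, ((H t).neighborSet v).ncard = 4) ∧
      (∀ v, 4 * T ≤ (∑ t, ((H t).neighborSet v).ncard) + 1) ∧
      (∀ t, Big (H t) N) ∧ (∀ t z, IsP (H t) z n → ¬ Heavy A Q z n) ∧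
      (∀ x ∈ Z, ∀ y ∈ Z, x ≠ y → ¬ near A 2000 x y) ∧
      ∀ x ∈ Z, ∀ y ∈ Q, ¬ near A 90 x y

/-- JED: every sink gives one edge to the last forest. -/
def JedStmt : Prop := ∀ (V : Type) [Fintype V] (A R P : SimpleGraph V) (Z : Set V) (k c : ℕ),
    R ≤ A → P ≤ R → 2 * c ≤ 2 * k → (∀ v, (R.neighborSet v).ncard = 2 * k) →
    (∀ v, v ∉ Z → (P.neighborSet v).ncard = 2 * c) →
    (∀ v, 2 * c ≤ (P.neighborSet v).ncard + 1) → (∀ v, (P.neighborSet v).ncard ≤ 2 * c) →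
    (∀ x ∈ Z, ∀ y ∈ Z, x ≠ y → ¬ near A 2000 x y) →
    ∃ J : SimpleGraph V, J ≤ R \ P ∧ (∀ u v, J.Adj u v → ∃ z ∈ Z, near A 1 u z) ∧
      (∀ u v u' v', J.Adj u v → J.Adj u' v' → near A 1990 u u' → s(u, v) = s(u', v')) ∧
      ∀ v, ((R \ (P ⊔ J)).neighborSet v).ncard ≤ 2 * k - 2 * c

/-- The numerical conditions of the inner machine (equal to `Num'` of `Helper53_LLG.Jnt`). -/
def NumI (B a h ℓ T L : ℕ) : Prop :=
  4 ≤ L ∧ 86 ≤ T ∧ 1 ≤ ℓ ∧ 512 * KK T ℓ * B ≤ L ^ 2 ∧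
  96 * KK T ℓ * T * (L - 1) ^ a ≤ L ^ a ∧
  6400 * KK T ℓ * ℓ * T * (2 * T + ℓ) ^ 3 ≤ 3 ^ h

/-- The numerical conditions of MACH. `n` is the length of the host paths. -/
def NumM (k T hH n a ℓ Tm L Nc : ℕ) : Prop :=
  NumI (T * (2 * k + 3) ^ 2000) a hH ℓ Tm L ∧ 1 ≤ T ∧ 2 ≤ n ∧
  4 * a ≤ Tm ∧ 8 * n + 20000 ≤ Tm ∧ 128 * T * (2 * k + 3) ^ 2000 ≤ Nc ∧
  8 * Nc + 8 * n + 20000 ≤ ℓ

/-- MACH: the graphs of maximum degree four are split into linear forests, up to few edges. -/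
def MachStmt : Prop := ∀ (V : Type) [Fintype V] (A R : SimpleGraph V) (Q Z : Set V)
    (k T q hH n a ℓ Tm L Nc : ℕ) (H : Fin T → SimpleGraph V), NumM k T hH n a ℓ Tm L Nc →
    Stt A R Q k 4100 q →
    (∀ t, H t ≤ R) → (∀ t t', t ≠ t' → Disjoint (H t) (H t')) →
    (∀ t v, ((H t).neighborSet v).ncard ≤ 4) →
    (∀ t, Big (H t) (2 * hH)) → (∀ t z, IsP (H t) z n → ¬ Heavy A Q z n) →
    (∀ x ∈ Z, ∀ y ∈ Z, x ≠ y → ¬ near A 2000 x y) → (∀ x ∈ Z, ∀ y ∈ Q, ¬ near A 90 x y) →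
    ∃ (F : Fin (2 * T) → SimpleGraph V) (N : SimpleGraph V),
      (∀ i, F i ≤ ⨆ t, H t) ∧ (∀ i, (F i).IsAcyclic ∧ ∀ v, ((F i).neighborSet v).ncard ≤ 2) ∧
      N ≤ ⨆ t, H t ∧ (⨆ i, F i) ⊔ N = ⨆ t, H t ∧
      (∀ u v, N.Adj u v → (∀ x ∈ Q, ¬ near A 88 u x) ∧ ∀ x ∈ Z, ¬ near A 90 u x) ∧
      (∀ u v u' v', N.Adj u v → N.Adj u' v' → s(u, v) ≠ s(u', v') → ¬ near A 88 u u') ∧
      ∀ v, {u | (∃ w, N.Adj u w) ∧ near (A \ N) 93 u v}.ncard ≤ 2

/-- The numerical conditions of one round. -/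
def NumR (k T g q : ℕ) : Prop := 2 * T < k ∧ ∃ (b m s h hH n a ℓ Tm L Nc : ℕ) (η : ℝ),
  2 * h ≤ g ∧ 2050 ≤ h ∧ NumL k T (2 * T) b m s q ((2 * k + 3) ^ 2000) (max (2 * hH) n) η ∧
  NumE k T q h (2 * hH) n η ∧ m ≤ (k / 8) ^ h ∧ NumM k T hH n a ℓ Tm L Nc

/-- STEP: one round. -/
def StepStmt : Prop := ∀ k T g q : ℕ, NumR k T g q → Good (k - 2 * T) g (q + 3) → GoodR k g q

/-- BASE: the last stage. -/
def BaseStmt : Prop := ∀ k h q : ℕ, 1 ≤ k → 2 ^ 273 * (2 * k + 4) ^ 122 ≤ 3 ^ h →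
    Good k (2 * h) q

/-- START: from graphs to states. -/
def StartStmt : Prop := ∀ (V : Type) [Fintype V] (G : SimpleGraph V) (Δ g : ℕ), 8000 ≤ g →
    Big G g → (∀ v, (G.neighborSet v).ncard ≤ Δ) → Good (Δ / 2) g 1 →
    ∃ F : Fin (Δ / 2 + 1) → SimpleGraph V,
      (∀ i, (F i).IsAcyclic ∧ ∀ v, ((F i).neighborSet v).ncard ≤ 2) ∧ (⨆ i, F i) = G

/-! ### Numbers -/

/-- `Λ = log K + 1`. -/
def pL (K : ℕ) : ℕ := Nat.log 2 K + 1

/-- number of hosts -/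
def pT (K k : ℕ) : ℕ := k / (10 ^ 6 * pL K)

/-- half of the girth of the graphs of maximum degree four -/
def pH (k : ℕ) : ℕ := 160000 * (Nat.log 2 k + 10)

/-- length of the host paths -/
def pn (k : ℕ) : ℕ := 40000 * (Nat.log 2 k + 1)

/-- half of the girth -/
def ph (K : ℕ) : ℕ := 10 ^ 6 * (Nat.log 2 (pL K) + 30)

/-- NUML -/
def NumlStmt : Prop := ∃ K0 : ℕ, ∀ K k q : ℕ, K0 ≤ K → pL K ^ 5000 ≤ k → k ≤ K → q ≤ pL K ^ 4 →
    2 * pT K k < k ∧ (2 * k + 3) ^ 2010 ≤ (k / 8) ^ (ph K) ∧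
    NumL k (pT K k) (2 * pT K k) ((2 * k + 3) ^ 2003) ((2 * k + 3) ^ 2010) (4000 * pL K) q
      ((2 * k + 3) ^ 2000) (max (2 * pH k) (pn k)) (1 / (64 * (k : ℝ) ^ 2))

/-- NUME -/
def NumeStmt : Prop := ∃ K0 : ℕ, ∀ K k q : ℕ, K0 ≤ K → pL K ^ 5000 ≤ k → k ≤ K → q ≤ pL K ^ 4 →
    NumE k (pT K k) q (ph K) (2 * pH k) (pn k) (1 / (64 * (k : ℝ) ^ 2))

/-- NUMI: the numbers of the inner machine; `a = T / 4`. -/
def NumiStmt : Prop := ∀ D h B : ℕ, 2 ^ 273 * (D + 2) ^ 122 ≤ 3 ^ h → B ≤ (D + 2) ^ 21 →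
    NumI B (2 ^ 43 * (D + 2) ^ 24) h (2 ^ 12 * (D + 2)) (2 ^ 45 * (D + 2) ^ 24)
      (2 ^ 36 * (D + 2) ^ 23)

/-- NUMM: `D = (2 k + 3) ^ 2003` in NUMI. -/
def NummStmt : Prop := ∃ K0 : ℕ, ∀ K k : ℕ, K0 ≤ K → pL K ^ 5000 ≤ k → k ≤ K →
    NumM k (pT K k) (pH k) (pn k) (2 ^ 43 * ((2 * k + 3) ^ 2003 + 2) ^ 24)
      (2 ^ 12 * ((2 * k + 3) ^ 2003 + 2)) (2 ^ 45 * ((2 * k + 3) ^ 2003 + 2) ^ 24)
      (2 ^ 36 * ((2 * k + 3) ^ 2003 + 2) ^ 23) (128 * pT K k * (2 * k + 3) ^ 2000)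

/-- NUMS: there are rounds from every large degree `K` down to a degree `kf` where the last stage
works, for the girth `C log log K`. `r k` is a bound for three times the number of rounds. -/
def NumsStmt : Prop := ∃ C K0 : ℕ, ∀ K : ℕ, K0 ≤ K → ∃ (kf h qm : ℕ) (T r : ℕ → ℕ),
    1 ≤ kf ∧ 2 * h ≤ C * (Nat.log 2 (Nat.log 2 K) + 1) ∧
    2 ^ 273 * (2 * kf + 4) ^ 122 ≤ 3 ^ h ∧ r K + 1 ≤ qm ∧
    ∀ k, kf < k → k ≤ K → r (k - 2 * T k) + 3 ≤ r k ∧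
      ∀ q, q + r k ≤ qm → NumR k (T k) (C * (Nat.log 2 (Nat.log 2 K) + 1)) q

/-! ### The theorem -/

/-- TOP: for all large `Δ`, girth `C log log Δ` suffices. -/
def TopStmt : Prop := ∃ C Δ0 : ℕ, ∀ (V : Type) [Fintype V] (G : SimpleGraph V) (Δ : ℕ), Δ0 ≤ Δ →
    (∀ v, (G.neighborSet v).ncard ≤ Δ) → Big G (C * (Nat.log 2 (Nat.log 2 Δ) + 1)) →
    ∃ F : Fin (Δ / 2 + 1) → SimpleGraph V,
      (∀ i, (F i).IsAcyclic ∧ ∀ v, ((F i).neighborSet v).ncard ≤ 2) ∧ (⨆ i, F i) = G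

end Pool.Agent.LLG
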