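import Mathlib
import Pool.Agent.Helper22_LLG.Stmt
import Pool.Agent.Helper76_LAG.Res

/-!
# LLG, module RES: the theorem in the form of the question
-/

set_option autoImplicit false

open SimpleGraph Pool.Agent.LAG Pool.Agent.LAG.Res Pool.Agent.Helper14_LA

namespace Pool.Agent.LLG.Res

/-- The linear arboricity of `G`: the least `k` such that `G` is the union of `k` linear forests
(acyclic graphs all of whose degrees are at most two) on the vertex set of `G`. -/
noncomputable def la {V : Type} (G : SimpleGraph V) : ℕ :=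
  sInf {k : ℕ | ∃ F : Fin k → SimpleGraph V,
    (∀ i, (F i).IsAcyclic ∧ ∀ v, ((F i).neighborSet v).ncard ≤ 2) ∧ (⨆ i, F i) = G}

lemma loglog3 : (9 : ℝ) / 100 < Real.log (Real.log 3) := by
  have h3 : (1.098 : ℝ) < Real.log 3 := by
    rw [Real.lt_log_iff_exp_lt (by norm_num)]
    have h1 := Real.exp_one_lt_d9
    have h2 : Real.exp (0.098 : ℝ) ≤ 1.103 := by
      have := Real.exp_bound' (x := (0.098 : ℝ)) (by norm_num) (by norm_num) (n := 4) (by norm_num)
      refine this.trans ?_
      norm_num [Finset.sum_range_succ, Nat.factorial]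
    have h4 : Real.exp (1.098 : ℝ) = Real.exp 1 * Real.exp 0.098 := by
      rw [← Real.exp_add]; norm_num
    rw [h4]
    have h5 : (0 : ℝ) < Real.exp 1 := Real.exp_pos _
    nlinarith [Real.exp_pos (0.098 : ℝ)]
  have h6 : (9 : ℝ) / 100 < Real.log 1.098 := by
    rw [Real.lt_log_iff_exp_lt (by norm_num)]
    have := Real.exp_bound' (x := (9 / 100 : ℝ)) (by norm_num) (by norm_num) (n := 4) (by norm_num)
    refine this.trans_lt ?_
    norm_num [Finset.sum_range_succ, Nat.factorial]
  exact h6.trans (Real.log_lt_log (by norm_num) h3)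

lemma loglog_mono {d : ℕ} : Real.log (Real.log 3) ≤ Real.log (Real.log (d + 3)) := by
  have h3 : 0 < Real.log 3 := Real.log_pos (by norm_num)
  apply Real.log_le_log h3
  apply Real.log_le_log (by norm_num)
  have : (0 : ℝ) ≤ d := Nat.cast_nonneg _
  linarith

/-- from natural to real logarithms -/
lemma natlog (d : ℕ) : ((Nat.log 2 (Nat.log 2 d) + 1 : ℕ) : ℝ) <
    30 * Real.log (Real.log (d + 3)) := by
  have hl := loglog3
  have hm := loglog_mono (d := d)
  have hl2 : (0.6931471803 : ℝ) < Real.log 2 := Real.log_two_gt_d9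
  have hl2' : Real.log 2 < (0.6931471808 : ℝ) := Real.log_two_lt_d9
  by_cases hd : Nat.log 2 d = 0
  · rw [hd]
    simp only [Nat.log_zero_right, zero_add, Nat.cast_one]
    linarith
  have hd1 : 1 ≤ Nat.log 2 d := Nat.one_le_iff_ne_zero.2 hd
  have hd0 : d ≠ 0 := by rintro rfl; simp at hd
  have h1 : (2 : ℝ) ^ (Nat.log 2 (Nat.log 2 d)) ≤ (Nat.log 2 d : ℝ) := by
    exact_mod_cast Nat.pow_log_le_self 2 hd
  have h2 : (2 : ℝ) ^ (Nat.log 2 d) ≤ (d : ℝ) := by exact_mod_cast Nat.pow_log_le_self 2 hd0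
  have hd0' : (0 : ℝ) < d := by positivity
  have h3 : (Nat.log 2 d : ℝ) * Real.log 2 ≤ Real.log (d + 3) := by
    have := Real.log_le_log (by positivity) h2
    rw [Real.log_pow] at this
    exact this.trans (Real.log_le_log hd0' (by linarith))
  have hA : (0 : ℝ) < (Nat.log 2 d : ℝ) := by exact_mod_cast hd1
  have h4 : (Nat.log 2 (Nat.log 2 d) : ℝ) * Real.log 2 ≤ Real.log (Nat.log 2 d) := by
    have := Real.log_le_log (by positivity) h1
    rwa [Real.log_pow] at this
  have h5 : (Nat.log 2 d : ℝ) ≤ 3 / 2 * Real.log (d + 3) := by nlinarith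
  have h6 : Real.log (Nat.log 2 d) ≤ Real.log (3 / 2) + Real.log (Real.log (d + 3)) := by
    have hp : 0 < Real.log ((d : ℝ) + 3) := Real.log_pos (by linarith)
    rw [← Real.log_mul (by norm_num) hp.ne']
    exact Real.log_le_log hA h5
  have h7 : Real.log (3 / 2) ≤ (1 / 2 : ℝ) := by
    have := Real.log_le_sub_one_of_pos (x := (3 / 2 : ℝ)) (by norm_num)
    linarith
  set x := (Nat.log 2 (Nat.log 2 d) : ℝ) with hx
  have hx0 : 0 ≤ x := Nat.cast_nonneg _
  have h8 : x ≤ 3 / 2 * (1 / 2 + Real.log (Real.log (d + 3))) := by nlinarith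
  push_cast
  rw [← hx]
  linarith

/-- the covering statement for all degrees -/
theorem cover (hTop : TopStmt) (hFin : FinStmt) : ∃ C : ℝ, 0 < C ∧
    ∀ (V : Type) [Fintype V] (G : SimpleGraph V) (d : ℕ),
      (∀ v, (G.neighborSet v).ncard ≤ d) →
      (∀ (v : V) (c : G.Walk v v), c.IsCycle →
        C * Real.log (Real.log (d + 3)) ≤ c.length) →
      CoveredBy G (d / 2 + 1) := by
  obtain ⟨C0, d0, hT⟩ := hTop
  obtain ⟨h, h1, -⟩ := exists_h (d0 + 2) (by omega)
  refine ⟨30 * C0 + 30 * h + 30, by positivity, ?_⟩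
  intro V _ G d hdeg hg
  have hl := loglog3
  have hm := loglog_mono (d := d)
  by_cases hd : d0 ≤ d
  · have hb : Big G (C0 * (Nat.log 2 (Nat.log 2 d) + 1)) := by
      intro v c hc
      have h3 := hg v c hc
      have h4 := natlog d
      have h5 : ((C0 * (Nat.log 2 (Nat.log 2 d) + 1) : ℕ) : ℝ) < c.length := by
        push_cast at h4 ⊢
        refine lt_of_lt_of_le ?_ h3
        have hC0 : (0 : ℝ) ≤ C0 := Nat.cast_nonneg _
        have hh0 : (0 : ℝ) ≤ h := Nat.cast_nonneg _
        have h6 : (C0 : ℝ) * ((Nat.log 2 (Nat.log 2 d) : ℝ) + 1) ≤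
            C0 * (30 * Real.log (Real.log (d + 3))) := mul_le_mul_of_nonneg_left h4.le hC0
        have h7 : 0 ≤ (h : ℝ) * Real.log (Real.log (d + 3)) :=
          mul_nonneg hh0 (by linarith)
        nlinarith
      exact_mod_cast h5
    exact hT V G d hd hdeg hb
  · have hb : Big G (2 * h) := by
      intro v c hc
      have h3 := hg v c hc
      have h5 : ((2 * h : ℕ) : ℝ) < c.length := by
        push_cast
        refine lt_of_lt_of_le ?_ h3
        have hC0 : (0 : ℝ) ≤ C0 := Nat.cast_nonneg _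
        have hh0 : (0 : ℝ) ≤ h := Nat.cast_nonneg _
        have h9 : 0 ≤ (C0 : ℝ) * Real.log (Real.log (d + 3)) := mul_nonneg hC0 (by linarith)
        have h10 : (h : ℝ) * (9 / 100) ≤ h * Real.log (Real.log (d + 3)) :=
          mul_le_mul_of_nonneg_left (by linarith) hh0
        nlinarith
      exact_mod_cast h5
    exact hFin V G d h hdeg ((Nat.mul_le_mul_left _ (Nat.pow_le_pow_left (by omega) 122)).trans h1) hb

/-- all graphs and regular graphs -/
theorem final (hTop : TopStmt) (hFin : FinStmt) : ∃ C : ℝ, 0 < C ∧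
    (∀ (V : Type) [Fintype V] (G : SimpleGraph V) [DecidableRel G.Adj],
      (∀ (v : V) (c : G.Walk v v), c.IsCycle →
        C * Real.log (Real.log (G.maxDegree + 3)) ≤ c.length) →
      la G ≤ (G.maxDegree + 2) / 2) ∧
    (∀ (V : Type) [Fintype V] [Nonempty V] (G : SimpleGraph V) [DecidableRel G.Adj] (r : ℕ),
      0 < r → G.IsRegularOfDegree r →
      (∀ (v : V) (c : G.Walk v v), c.IsCycle →
        C * Real.log (Real.log (r + 3)) ≤ c.length) →
      la G = (r + 2) / 2) := by
  obtain ⟨C, hC, hcov⟩ := cover hTop hFin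
  refine ⟨C, hC, ?_, ?_⟩
  · intro V _ G _ hg
    have h1 : CoveredBy G (G.maxDegree / 2 + 1) := hcov V G G.maxDegree (fun v => by
      rw [ncard_eq_degree]; exact G.degree_le_maxDegree v) hg
    have : la G ≤ G.maxDegree / 2 + 1 := la_le h1
    omega
  · intro V _ _ G _ r hr hreg hg
    have hreg' : ∀ v, (G.neighborSet v).ncard = r := fun v => by
      rw [ncard_eq_degree, hreg v]
    have h1 : CoveredBy G (r / 2 + 1) := hcov V G r (fun v => by rw [hreg']) hg
    have h5 := lower_bound G hr hreg' (la_mem h1)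
    have h6 : la G ≤ r / 2 + 1 := la_le h1
    have h7 : (r + 2) / 2 ≤ la G := by
      have h8 : Pool.Agent.LAG.Res.la G = la G := rfl
      omega
    omega

end Pool.Agent.LLG.Res
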