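import Mathlib
import Pool.Agent.Helper22_LLG.Stmt
import Pool.Agent.Helper22_LLG.Res
import Pool.Agent.Helper7_LLG.Base
import Pool.Agent.Helper7_LLG.Cycc
import Pool.Agent.Helper7_LLG.Hcnt
import Pool.Agent.Helper10_LLG.Clu
import Pool.Agent.Helper10_LLG.Evs
import Pool.Agent.Helper10_LLG.Numi
import Pool.Agent.Helper93_LLG.Count
import Pool.Agent.Helper93_LLG.Hmt
import Pool.Agent.Helper56_LLG.Den
import Pool.Agent.Helper48_LLG.Jed
import Pool.Agent.Helper48_LLG.Ori
import Pool.Agent.Helper48_LLG.Pull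
import Pool.Agent.Helper48_LLG.Start
import Pool.Agent.Helper48_LLG.Match
import Pool.Agent.Helper81_LLG.Lllw
import Pool.Agent.Helper81_LLG.Nume
import Pool.Agent.Helper53_LLG.Mach
import Pool.Agent.Helper63_LLG.Merge
import Pool.Agent.Helper27_LLG.Moo
import Pool.Agent.Helper70_LLG.Numm
import Pool.Agent.Helper70_LLG.Nums
import Pool.Agent.Helper31_LLG.Rll
import Pool.Agent.Helper94_LLG.Spr
import Pool.Agent.Helper94_LLG.Spr0
import Pool.Agent.Helper39_LLG.Spr1
import Pool.Agent.Helper73_LLG.Step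
import Pool.Agent.Helper99_LLG.Top
import Pool.Agent.Helper76_LAG.All

/-!
# LLG: the assembly
-/

set_option autoImplicit false

namespace Pool.Agent.LLG.All

/-- TOP from NUML. -/
theorem top_of (hNuml : NumlStmt) : TopStmt :=
  have hCount : CountStmt := H93.count (H10.clu (H94.spr (H39.spr1 H63.merge H63.unm_av) H94.spr0))
  have hMatch : MatchStmt := H48.match_ (H31.rll hCount H81.lllw) H93.hmt H27.moo H56.den
    (H10.evs H7.hcnt H7.cycc) H48.ori
  H99.top (H73.step hMatch H48.jed H53.mach) H48.pull H7.base H48.start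
    (H70.nums hNuml H81.nume (H70.numm H10.numi))

end Pool.Agent.LLG.All
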